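import Pool.Agent.H2.NL.Basic

/-!
# Row MLT of nil_modules: multiplicities of eigenvalues
-/

set_option autoImplicit false
set_option linter.unusedSectionVars false

open Matrix Pool.Agent.H2.NL Pool.Agent.H64.CC

namespace Pool.Agent.H44.NL

section

variable {K : Type} [Field K] {P : Type} [Fintype P] [DecidableEq P]

/-- the projection to the letters of parity `c` -/
private def pr (K : Type) [Field K] {P : Type} [DecidableEq P] (o : P → Bool) (c : Bool) :
    Matrix P P K := Matrix.diagonal fun a => if o a = c then 1 else 0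

private theorem pr_sq (o : P → Bool) (c : Bool) : pr K o c * pr K o c = pr K o c := by
  unfold pr
  rw [Matrix.diagonal_mul_diagonal]
  congr 1
  funext a
  by_cases h : o a = c <;> simp [h]

private theorem pr_comm (o : P → Bool) (c : Bool) (m : Matrix P P K)
    (hm : ∀ a b, m a b ≠ 0 → o a = o b) : pr K o c * m = m * pr K o c := by
  unfold pr
  ext a b
  rw [Matrix.diagonal_mul, Matrix.mul_diagonal]
  by_cases h : m a b = 0
  · rw [h]; simp
  · rw [hm a b h]; ring

private theorem pr_pow (o : P → Bool) (c : Bool) (m : Matrix P P K)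
    (hm : ∀ a b, m a b ≠ 0 → o a = o b) (k : ℕ) :
    (pr K o c * m) ^ (k + 1) = pr K o c * m ^ (k + 1) := by
  have hc : Commute (pr K o c) m := pr_comm o c m hm
  rw [hc.mul_pow]
  congr 1
  induction k with
  | zero => simp
  | succ k ih => rw [pow_succ, ih, pr_sq]

private theorem tr_pr (o : P → Bool) (c : Bool) (m : Matrix P P K) :
    (pr K o c * m).trace = ∑ y, (if o y = c then 1 else 0) * m y y := by
  unfold pr Matrix.trace
  refine Finset.sum_congr rfl fun y _ => ?_
  rw [Matrix.diag_apply, Matrix.diagonal_mul]

private theorem sg_tr (o : P → Bool) (m : Matrix P P K) :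
    ∑ y, sg K (o y) * m y y = (pr K o false * m).trace - (pr K o true * m).trace := by
  rw [tr_pr, tr_pr, ← Finset.sum_sub_distrib]
  refine Finset.sum_congr rfl fun y _ => ?_
  unfold sg
  cases o y <;> simp

private theorem sg_pow (o : P → Bool) (m : Matrix P P K)
    (hm : ∀ a b, m a b ≠ 0 → o a = o b) (k : ℕ) :
    ∑ y, sg K (o y) * (m ^ (k + 1)) y y =
      ((pr K o false * m) ^ (k + 1)).trace - ((pr K o true * m) ^ (k + 1)).trace := by
  rw [sg_tr, pr_pow o false m hm, pr_pow o true m hm]

private theorem charpoly_bd (S : Type) [Fintype S] [DecidableEq S] (M : Matrix P P K) :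
    (Matrix.blockDiagonal fun _ : S => M).charpoly = M.charpoly ^ Fintype.card S := by
  have h1 : (Matrix.blockDiagonal fun _ : S => M).charmatrix =
      Matrix.blockDiagonal fun _ : S => M.charmatrix := by
    ext ⟨i, s⟩ ⟨j, s'⟩ : 1
    rw [Matrix.blockDiagonal_apply, Matrix.charmatrix_apply, Matrix.blockDiagonal_apply]
    by_cases h : s = s'
    · subst h
      rw [if_pos rfl, if_pos rfl, Matrix.charmatrix_apply]
      congr 1
      by_cases hij : i = j
      · subst hij; simp
      · rw [Matrix.diagonal_apply_ne _ hij, Matrix.diagonal_apply_ne]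
        intro h; exact hij (Prod.mk.inj h).1
    · rw [if_neg h, if_neg h, Matrix.diagonal_apply_ne, map_zero, sub_zero]
      intro h'; exact h (Prod.mk.inj h').2
  unfold Matrix.charpoly
  rw [h1, Matrix.det_blockDiagonal, Finset.prod_const, Finset.card_univ]

/-- the big block matrix -/
private def big {Q : Type} [DecidableEq Q]
    (N : ℕ) (u : Matrix Q Q K) (m : Matrix P P K) :
    Matrix ((Q × Fin 2) ⊕ (P × Fin N)) ((Q × Fin 2) ⊕ (P × Fin N)) K :=
  Matrix.fromBlocks (Matrix.blockDiagonal fun _ : Fin 2 => u) 0 0
    (Matrix.blockDiagonal fun _ : Fin N => m)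

private theorem big_pow {Q : Type} [Fintype Q] [DecidableEq Q]
    (N : ℕ) (u : Matrix Q Q K) (m : Matrix P P K) (k : ℕ) :
    (big N u m) ^ k = big N (u ^ k) (m ^ k) := by
  unfold big
  rw [Matrix.fromBlocks_diagonal_pow, ← Matrix.blockDiagonal_pow, ← Matrix.blockDiagonal_pow]
  rfl

private theorem big_trace {Q : Type} [Fintype Q] [DecidableEq Q]
    (N : ℕ) (u : Matrix Q Q K) (m : Matrix P P K) :
    (big N u m).trace = 2 * u.trace + N * m.trace := by
  have h : (big N u m).trace = (Matrix.blockDiagonal fun _ : Fin 2 => u).trace +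
      (Matrix.blockDiagonal fun _ : Fin N => m).trace := by
    unfold big Matrix.trace
    rw [Fintype.sum_sum_type]
    rfl
  rw [h, Matrix.trace_blockDiagonal, Matrix.trace_blockDiagonal]
  simp

private theorem big_charpoly {Q : Type} [Fintype Q] [DecidableEq Q]
    (N : ℕ) (u : Matrix Q Q K) (m : Matrix P P K) :
    (big N u m).charpoly = u.charpoly ^ 2 * m.charpoly ^ N := by
  unfold big
  rw [Matrix.charpoly_fromBlocks_zero₂₁, charpoly_bd, charpoly_bd, Fintype.card_fin,
    Fintype.card_fin]

end

theorem pf_MLT (hEQT : T_EQT) : T_MLT := by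
  classical
  intro K _ _ P Q _ _ _ _ o o' m u N hm hu hN h
  set m' : Matrix P P K := (2 : K) • m with hm'
  have hmp : ∀ a b, m' a b ≠ 0 → o a = o b := by
    intro a b hab
    refine hm a b fun h0 => hab ?_
    rw [hm', Matrix.smul_apply, h0, smul_zero]
  have htr : ∀ k : ℕ, ((big N (pr K o' false * u) (pr K o true * m')) ^ (k + 1)).trace =
      ((big N (pr K o' true * u) (pr K o false * m')) ^ (k + 1)).trace := by
    intro k
    have h1 := h k
    rw [sg_pow o' u hu, sg_pow o m' hmp] at h1
    rw [big_pow, big_pow, big_trace, big_trace]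
    linear_combination h1
  have hchar := hEQT K _ _ _ _ htr
  have hchar2 := mul_right_cancel₀ (pow_ne_zero _ Polynomial.X_ne_zero) hchar
  rw [big_charpoly, big_charpoly] at hchar2
  -- roots in the algebraic closure
  let Ω := AlgebraicClosure K
  let f : K →+* Ω := algebraMap K Ω
  have hmap := congrArg (Polynomial.map f) hchar2
  rw [Polynomial.map_mul, Polynomial.map_mul, Polynomial.map_pow, Polynomial.map_pow,
    Polynomial.map_pow, Polynomial.map_pow] at hmap
  have hne : ∀ {S : Type} [Fintype S] [DecidableEq S] (x : Matrix S S K),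
      x.charpoly.map f ≠ 0 := fun x => ((Matrix.charpoly_monic x).map f).ne_zero
  have hroots := congrArg Polynomial.roots hmap
  rw [Polynomial.roots_mul (mul_ne_zero (pow_ne_zero _ (hne _)) (pow_ne_zero _ (hne _))),
    Polynomial.roots_mul (mul_ne_zero (pow_ne_zero _ (hne _)) (pow_ne_zero _ (hne _))),
    Polynomial.roots_pow, Polynomial.roots_pow, Polynomial.roots_pow, Polynomial.roots_pow]
    at hroots
  have hcard : ∀ (x : Matrix Q Q K) (a : Ω),
      (x.charpoly.map f).roots.count a ≤ Fintype.card Q := by
    intro x a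
    refine (Multiset.count_le_card a _).trans ?_
    refine (Polynomial.card_roots' _).trans ?_
    rw [Polynomial.natDegree_map_eq_of_injective (RingHom.injective f),
      Matrix.charpoly_natDegree_eq_dim]
  have heq : ((pr K o true * m').charpoly.map f).roots =
      ((pr K o false * m').charpoly.map f).roots := by
    ext a
    have h1 := congrArg (Multiset.count a) hroots
    rw [Multiset.count_add, Multiset.count_add, Multiset.count_nsmul, Multiset.count_nsmul,
      Multiset.count_nsmul, Multiset.count_nsmul] at h1
    have h2 := hcard (pr K o' false * u) a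
    have h3 := hcard (pr K o' true * u) a
    generalize ((pr K o' false * u).charpoly.map f).roots.count a = x1 at h1 h2
    generalize ((pr K o' true * u).charpoly.map f).roots.count a = x2 at h1 h3
    generalize ((pr K o true * m').charpoly.map f).roots.count a = y1 at h1
    generalize ((pr K o false * m').charpoly.map f).roots.count a = y2 at h1
    rcases lt_trichotomy y1 y2 with hlt | heq | hgt
    · exfalso
      obtain ⟨d, rfl⟩ := Nat.exists_eq_add_of_lt hlt
      have h4 : N * (y1 + d + 1) = N * y1 + N * d + N := by ring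
      rw [h4] at h1
      have : 0 ≤ N * d := Nat.zero_le _
      omega
    · exact heq
    · exfalso
      obtain ⟨d, rfl⟩ := Nat.exists_eq_add_of_lt hgt
      have h4 : N * (y2 + d + 1) = N * y2 + N * d + N := by ring
      rw [h4] at h1
      have : 0 ≤ N * d := Nat.zero_le _
      omega
  have htrace : ∀ x : Matrix P P K, f x.trace = (x.charpoly.map f).roots.sum := by
    intro x
    have h1 := Matrix.trace_eq_sum_roots_charpoly (x.map f)
    rw [Matrix.charpoly_map] at h1
    rw [← h1]
    unfold Matrix.trace
    rw [map_sum]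
    rfl
  have hfin : (pr K o true * m').trace = (pr K o false * m').trace := by
    apply RingHom.injective f
    rw [htrace, htrace, heq]
  have hlast : ∑ y, sg K (o y) * m' y y = 0 := by
    rw [sg_tr, hfin, sub_self]
  have h2 : (2 : K) * ∑ y, sg K (o y) * m y y = 0 := by
    rw [← hlast, Finset.mul_sum]
    refine Finset.sum_congr rfl fun y _ => ?_
    rw [hm', Matrix.smul_apply, smul_eq_mul]
    ring
  exact (mul_eq_zero.1 h2).resolve_left two_ne_zero

end Pool.Agent.H44.NL
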