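import Pool.Agent.H2.NL.Basic

/-!
# Row RTR of nil_modules: the traces are rational
-/

set_option autoImplicit false
set_option linter.unusedSectionVars false

open Matrix Pool.Agent.H2.NL Pool.Agent.H64.CC

namespace Pool.Agent.H44.NL

private theorem pow_deg {K : Type} [Field K] [CharZero K] {W : Weil K} (hW : W.Theory)
    (V : W.Var 0) (L : W.Hom V V) (hL : L ∈ W.cyc V V 1) (r : ℕ) : L ^ r ∈ W.cyc V V (r : ℤ) := by
  induction r with
  | zero =>
    have h : (1 : W.Hom V V) ∈ W.cyc V V 0 := hW.calculus.one_mem V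
    simpa using h
  | succ r ih =>
    have h := hW.calculus.comp_mem V V V 1 (r : ℤ) L hL (L ^ r) ih
    have e : ((r + 1 : ℕ) : ℤ) = 1 + (r : ℤ) := by push_cast; ring
    rw [e, pow_succ]
    exact h

private theorem pow_zero_deg {K : Type} [Field K] [CharZero K] {W : Weil K} (hW : W.Theory)
    (V : W.Var 0) (y : W.Hom V V) (hy : y ∈ W.cyc V V 0) (k : ℕ) : y ^ k ∈ W.cyc V V 0 := by
  induction k with
  | zero =>
    have h : (1 : W.Hom V V) ∈ W.cyc V V 0 := hW.calculus.one_mem V
    simpa using h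
  | succ k ih =>
    have h : (y ^ k * y : W.Hom V V) ∈ W.cyc V V (0 + 0) :=
      hW.calculus.comp_mem V V V 0 0 y hy (y ^ k) ih
    rw [pow_succ]
    simpa using h

private theorem tr_rat {K : Type} [Field K] [CharZero K] {W : Weil K} (hW : W.Theory)
    (V : W.Var 0) (z : W.Hom V V) (hz : z ∈ W.cyc V V 0) : ∃ q : ℚ, z.trace = (q : K) := by
  have h1 : ∀ i : ℕ, ∃ q : ℚ, W.str (W.comp z (W.pj V i)) = (q : K) := by
    intro i
    have h := hW.calculus.comp_mem V V V 0 0 (W.pj V i) (hW.katzMessing V i) z hz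
    exact hW.calculus.trace_formula V _ (by simpa using h)
  choose q hq using h1
  refine ⟨∑ i ∈ Finset.range (2 * W.dim V + 1), (-1) ^ i * q i, ?_⟩
  push_cast
  simp only [← hq]
  have h2 : ∀ i, W.str (W.comp z (W.pj V i)) =
      ∑ a, (if W.deg V a = i then (-1 : K) ^ i * z a a else 0) := by
    intro i
    unfold Weil.str Weil.comp Weil.pj
    refine Finset.sum_congr rfl fun a _ => ?_
    rw [Matrix.mul_diagonal]
    by_cases h : W.deg V a = i
    · rw [if_pos h, if_pos h, h, mul_one]
    · rw [if_neg h, if_neg h, mul_zero, mul_zero]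
  simp only [h2]
  have h3 : ∀ i ∈ Finset.range (2 * W.dim V + 1),
      ((-1 : K) ^ i * ∑ a, (if W.deg V a = i then (-1 : K) ^ i * z a a else 0)) =
      ∑ a, (if W.deg V a = i then z a a else 0) := by
    intro i _
    rw [Finset.mul_sum]
    refine Finset.sum_congr rfl fun a _ => ?_
    by_cases h : W.deg V a = i
    · rw [if_pos h, if_pos h, ← mul_assoc, ← pow_add, ← two_mul, pow_mul]
      simp
    · rw [if_neg h, if_neg h, mul_zero]
  rw [Finset.sum_congr rfl h3, Finset.sum_comm]
  unfold Matrix.trace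
  refine Finset.sum_congr rfl fun a _ => ?_
  rw [Finset.sum_ite_eq, if_pos]
  · rfl
  · rw [Finset.mem_range]
    have := hW.calculus.deg_le V a
    omega

theorem pf_RTR : T_RTR := by
  intro K _ _ W hW V L hL r m T S c hc k
  have hLr : L ^ r ∈ W.cyc V V (r : ℤ) := pow_deg hW V L (hW.lefschetz.mem V L hL) r
  have hdu : W.comp S.down S.up ∈ W.cyc V V (r : ℤ) := by
    rw [S.down_up]
    have h := (W.cyc V V (r : ℤ)).smul_mem (S.N : ℚ) hLr
    have e : W.rat (S.N : ℚ) (W.pw L r) = (S.N : ℚ) • (L ^ r : W.Hom V V) := by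
      unfold Weil.rat Weil.pw
      ext a b
      rw [Matrix.smul_apply, Matrix.smul_apply, smul_eq_mul, Rat.smul_def]
    rw [e]
    exact h
  have hy : W.comp c (W.comp S.down S.up) ∈ W.cyc V V 0 := by
    have h := hW.calculus.comp_mem V V V (r : ℤ) (-(r : ℤ)) _ hdu c hc
    simpa using h
  obtain ⟨q, hq⟩ := tr_rat hW V _ (pow_zero_deg hW V _ hy (k + 1))
  refine ⟨q, ?_⟩
  rw [← hq]
  -- traces
  have hpow : ∀ k : ℕ, (S.up * c * S.down) ^ (k + 1) =
      S.up * ((c * (S.down * S.up)) ^ k * (c * S.down)) := by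
    intro k
    induction k with
    | zero => simp [Matrix.mul_assoc]
    | succ k ih =>
      rw [pow_succ, ih, pow_succ]
      simp only [Matrix.mul_assoc]
  change ((S.up * c * S.down) ^ (k + 1)).trace = ((c * (S.down * S.up)) ^ (k + 1)).trace
  rw [hpow, Matrix.trace_mul_comm, pow_succ]
  simp only [Matrix.mul_assoc]

end Pool.Agent.H44.NL
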