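import Pool.Agent.H2.NL.Basic

/-!
# Row SYM of nil_modules: symmetrization
-/

set_option autoImplicit false
set_option linter.unusedSectionVars false

open Matrix Pool.Agent.H2.NL Pool.Agent.H64.CC

namespace Pool.Agent.H44.NL

section

variable {K : Type} [Field K] {I : Type} [Fintype I] [DecidableEq I]

/-- the function on all words with given values on the words of length `n` -/
private noncomputable def ext (n : ℕ) (f : List.Vector I n → K) (w : List I) : K :=
  if h : w.length = n then f ⟨w, h⟩ else 0

/-- the operator of a list -/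
private def op' (o : I → Bool) (n : ℕ) (js : List ℕ) (t : List I → K) (w : List.Vector I n) : K :=
  sws o js t w.1

/-- composition with an exchange -/
private noncomputable def cmp (o : I → Bool) (n j : ℕ)
    (F : (List I → K) → List.Vector I n → K) (t : List I → K) (w : List.Vector I n) : K :=
  sw o j (ext n (F t)) w.1

private theorem cmp_op (o : I → Bool) (n j : ℕ) (hj : j + 2 ≤ n) (js : List ℕ) :
    cmp (K := K) o n j (op' o n js) = op' o n (j :: js) := by
  funext t w
  change sw o j (ext n (op' o n js t)) w.1 = sw o j (sws o js t) w.1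
  refine sw_congr o j n _ _ (fun v hv => ?_) hj w.1 w.2
  unfold ext
  rw [dif_pos hv]
  rfl

private theorem op_op (o : I → Bool) (n j : ℕ) (hj : j + 2 ≤ n) (js : List ℕ) :
    op' (K := K) o n (j :: j :: js) = op' o n js := by
  funext t w
  change sw o j (sw o j (sws o js t)) w.1 = sws o js t w.1
  exact sw_sw o j _ w.1 (by rw [w.2]; exact hj)

/-- the form of the operators -/
private theorem op_form (o : I → Bool) (n : ℕ) (js : List ℕ) (hjs : ∀ j ∈ js, j + 2 ≤ n) :
    ∃ p : (List.Vector I n → Bool) × (List.Vector I n → List.Vector I n),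
      op' (K := K) o n js = fun t w => (if p.1 w then (-1 : K) else 1) * t (p.2 w).1 := by
  classical
  induction js with
  | nil => exact ⟨(fun _ => false, id), by funext t w; simp [op', sws]⟩
  | cons j js ih =>
    obtain ⟨p, hp⟩ := ih fun i hi => hjs i (List.mem_cons_of_mem _ hi)
    have hj : j + 2 ≤ n := hjs j (List.mem_cons_self)
    have key : ∀ w : List.Vector I n, ∃ (b : Bool) (v : List.Vector I n), ∀ t : List I → K,
        op' (K := K) o n (j :: js) t w = (if b then (-1 : K) else 1) * t v.1 := by
      intro w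
      obtain ⟨α, a, b, β, hα, hw⟩ := exists_split j w.1 (by rw [w.2]; exact hj)
      have hlen : (α ++ b :: a :: β).length = n := by
        have h1 := w.2
        rw [hw] at h1
        simpa using h1
      refine ⟨(o a && o b) ^^ p.1 ⟨α ++ b :: a :: β, hlen⟩, p.2 ⟨α ++ b :: a :: β, hlen⟩,
        fun t => ?_⟩
      change sw o j (sws o js t) w.1 = _
      have h2 : sws o js t (α ++ b :: a :: β) =
          (if p.1 ⟨α ++ b :: a :: β, hlen⟩ then (-1 : K) else 1) *
            t (p.2 ⟨α ++ b :: a :: β, hlen⟩).1 :=
        congrFun (congrFun hp t) ⟨α ++ b :: a :: β, hlen⟩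
      rw [hw, ← hα, sw_append, h2, ← mul_assoc]
      congr 1
      unfold ks
      cases o a <;> cases o b <;> cases p.1 ⟨α ++ b :: a :: β, hlen⟩ <;> simp
    choose b v hbv using key
    exact ⟨(b, v), by funext t w; exact hbv w t⟩

private theorem sw_sum (o : I → Bool) (j : ℕ) (L : List (List ℕ)) (f : List ℕ → List I → K)
    (w : List I) (hw : j + 2 ≤ w.length) :
    sw o j (fun w => (L.map fun js => f js w).sum) w = (L.map fun js => sw o j (f js) w).sum := by
  obtain ⟨α, a, b, β, hα, rfl⟩ := exists_split j w hw
  subst hα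
  rw [sw_append]
  simp only [sw_append]
  rw [List.sum_map_mul_left]

end

theorem pf_SYM : T_SYM := by
  classical
  intro K _ I _ _ o n
  let T : Set ((List I → K) → List.Vector I n → K) :=
    {F | ∃ js : List ℕ, (∀ j ∈ js, j + 2 ≤ n) ∧ F = op' o n js}
  have hT : T.Finite := by
    refine Set.Finite.subset (Set.finite_range
      (fun (p : (List.Vector I n → Bool) × (List.Vector I n → List.Vector I n))
        (t : List I → K) (w : List.Vector I n) => (if p.1 w then (-1 : K) else 1) * t (p.2 w).1)) ?_
    rintro F ⟨js, hjs, rfl⟩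
    obtain ⟨p, hp⟩ := op_form (K := K) o n js hjs
    exact ⟨p, hp.symm⟩
  have h0 : op' (K := K) o n [] ∈ T := ⟨[], by simp, rfl⟩
  have hch : ∀ F : (List I → K) → List.Vector I n → K, ∃ js : List ℕ,
      (F ∈ T → (∀ j ∈ js, j + 2 ≤ n) ∧ F = op' o n js) ∧ (F = op' o n [] → js = []) := by
    intro F
    by_cases hF : F = op' o n []
    · exact ⟨[], fun _ => ⟨by simp, hF⟩, fun _ => rfl⟩
    · by_cases hF' : F ∈ T
      · obtain ⟨js, h1, h2⟩ := hF'
        exact ⟨js, fun _ => ⟨h1, h2⟩, fun h => absurd h hF⟩
      · exact ⟨[], fun h => absurd h hF', fun h => absurd h hF⟩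
  choose c hc1 hc2 using hch
  refine ⟨hT.toFinset.toList.map c, ?_, ?_, ?_⟩
  · rw [List.mem_map]
    exact ⟨op' o n [], by simpa using h0, hc2 _ rfl⟩
  · intro js hjs
    rw [List.mem_map] at hjs
    obtain ⟨F, hF, rfl⟩ := hjs
    have hF' : F ∈ T := by simpa using hF
    exact (hc1 F hF').1
  · intro t j hj w hw
    rw [sw_sum o j _ (fun js => sws o js t) w (by omega)]
    beta_reduce
    rw [List.map_map, List.map_map]
    have hs : ∀ g : ((List I → K) → List.Vector I n → K) → K,
        (hT.toFinset.toList.map g).sum = ∑ F ∈ hT.toFinset, g F := fun g =>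
      Finset.sum_map_toList _ _
    rw [hs, hs]
    -- both sides in terms of the operators
    have e1 : ∀ F ∈ hT.toFinset, ((fun js => sw o j (sws o js t) w) ∘ c) F =
        cmp o n j F t ⟨w, hw⟩ := by
      intro F hF
      have hF' : F ∈ T := by simpa using hF
      obtain ⟨h1, h2⟩ := hc1 F hF'
      change sw o j (sws o (c F) t) w = _
      conv_rhs => rw [h2]
      rw [cmp_op o n j hj]
      rfl
    have e2 : ∀ F ∈ hT.toFinset, ((fun js => sws o js t w) ∘ c) F = F t ⟨w, hw⟩ := by
      intro F hF
      have hF' : F ∈ T := by simpa using hF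
      obtain ⟨h1, h2⟩ := hc1 F hF'
      change sws o (c F) t w = _
      conv_rhs => rw [h2]
      rfl
    rw [Finset.sum_congr rfl e1, Finset.sum_congr rfl e2]
    have hmem : ∀ F ∈ hT.toFinset, cmp o n j F ∈ hT.toFinset := by
      intro F hF
      have hF' : F ∈ T := by simpa using hF
      obtain ⟨h1, h2⟩ := hc1 F hF'
      have h3 : cmp o n j F ∈ T := by
        rw [h2, cmp_op o n j hj]
        refine ⟨j :: c F, ?_, rfl⟩
        intro i hi
        rcases List.mem_cons.1 hi with rfl | hi
        · exact hj
        · exact h1 i hi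
      simpa using h3
    have hinv : ∀ F ∈ hT.toFinset, cmp o n j (cmp o n j F) = F := by
      intro F hF
      have hF' : F ∈ T := by simpa using hF
      obtain ⟨h1, h2⟩ := hc1 F hF'
      rw [h2, cmp_op o n j hj, cmp_op o n j hj, op_op o n j hj]
    refine Finset.sum_nbij' (fun F => cmp o n j F) (fun F => cmp o n j F) hmem hmem hinv hinv ?_
    intro F _
    rfl

end Pool.Agent.H44.NL
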